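import Mathlib

namespace Pool.Agent.Results.MP_a13a55_pr.Rigid

open MeasureTheory

/-- `D i u v` says that the edge `uv` has colour `i` and points from `u` to `v` -/
def IsSchreier {V : Type} (G : SimpleGraph V) {d : ℕ} (D : Fin d → V → V → Prop) : Prop :=
  (∀ i u v, D i u v → G.Adj u v) ∧
  (∀ u v, G.Adj u v → ∃! c : Fin d × Bool, if c.2 then D c.1 u v else D c.1 v u) ∧
  (∀ i v, ∃! w, D i v w) ∧ ∀ i v, ∃! w, D i w v

abbrev W := ZMod 5 × ℤ

def e (k : ℤ) : ZMod 5 := 2 ^ (k % 4).toNat

theorem e_add (k l : ℤ) : e (k + l) = e k * e l := by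
  unfold e
  rw [Int.add_emod]
  have a : k % 4 = 0 ∨ k % 4 = 1 ∨ k % 4 = 2 ∨ k % 4 = 3 := by omega
  have b : l % 4 = 0 ∨ l % 4 = 1 ∨ l % 4 = 2 ∨ l % 4 = 3 := by omega
  rcases a with a | a | a | a <;> rcases b with b | b | b | b <;> rw [a, b] <;> decide

def mul (x y : W) : W := (x.1 + e x.2 * y.1, x.2 + y.2)

def iv (x : W) : W := (-(e (-x.2) * x.1), -x.2)

theorem assoc (x y z : W) : mul (mul x y) z = mul x (mul y z) := by
  simp only [mul, e_add, Prod.mk.injEq]; constructor <;> ring

theorem mul0 (x : W) : mul x 0 = x := by simp [mul]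

theorem e0 : e 0 = 1 := by decide

theorem mul1 (x : W) : mul 0 x = x := by simp [mul, e0]

theorem iv1 (x : W) : mul (iv x) x = 0 := by simp [mul, iv]

theorem iv2 (x : W) : mul x (iv x) = 0 := by simp [mul, iv, ← mul_assoc, ← e_add, e0]

theorem canc (x y z : W) (h : mul x y = mul x z) : y = z := by
  rw [← mul1 y, ← mul1 z, ← iv1 x, assoc, assoc, h]

def T : Fin 10 → W :=
  ![(1, 0), (0, 1), (1, 1), (2, 1), (0, 2), (4, 0), (0, -1), (2, -1), (4, -1), (0, -2)]

theorem T_inv : ∀ i, mul (T i) (T (i + 5)) = 0 := by decide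

theorem T_inj : Function.Injective T := by decide

def G : SimpleGraph W where
  Adj x y := ∃ i, y = mul x (T i)
  symm := ⟨by rintro x y ⟨i, rfl⟩; exact ⟨i + 5, by rw [assoc, T_inv, mul0]⟩⟩
  loopless := ⟨by
    rintro x ⟨i, h⟩
    have : ∀ i, 0 ≠ T i := by decide
    exact this i (canc x _ _ ((mul0 x).trans h))⟩

def L (g : W) : G ≃g G where
  toFun := mul g
  invFun := mul (iv g)
  left_inv x := by rw [← assoc, iv1, mul1]
  right_inv x := by rw [← assoc, iv2, mul1]
  map_rel_iff' := by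
    intro x y
    refine exists_congr fun i => ⟨fun h => canc g _ _ (h.trans (assoc ..)), fun h => ?_⟩
    rw [h]; exact (assoc ..).symm

def f : ℕ → Fin 10 → ℕ
  | 0 => fun _ => 1
  | 1 => ![3, 4, 3, 3, 2, 3, 4, 3, 3, 2]
  | 2 => ![10, 12, 8, 10, 7, 10, 12, 10, 8, 7]
  | 3 => ![30, 39, 27, 32, 20, 28, 39, 30, 27, 20]
  | 4 => ![98, 119, 78, 99, 66, 93, 119, 98, 78, 66]
  | 5 => ![296, 377, 257, 315, 197, 275, 381, 296, 257, 197]
  | 6 => ![953, 1168, 768, 969, 634, 891, 1166, 953, 768, 638]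
  | 7 => ![2903, 3660, 2478, 3074, 1936, 2704, 3712, 2903, 2482, 1934]
  | _ => ![9264, 11426, 7543, 9466, 6138, 8620, 11400, 9268, 7541, 6194]

theorem f_step : ∀ k < 8, ∀ i,
    f (k + 1) i = ∑ j, if ∃ l, T j = mul (T i) (T l) then f k j else 0 := by decide +kernel

theorem f_inj : Function.Injective (f 8) := by decide +kernel

theorem fix (φ : G ≃g G) (h : φ 0 = 0) (i) : φ (T i) = T i := by
  have : ∀ i, ∃ j, φ (T i) = T j := fun i => by
    have : G.Adj (φ 0) (φ (T i)) := φ.map_rel_iff.2 ⟨i, (mul1 _).symm⟩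
    rw [h] at this
    simpa only [G, mul1] using this
  choose p hp using this
  have pi : Function.Injective p := fun a b hab =>
    T_inj (φ.injective (by rw [hp, hp, hab]))
  have key : ∀ k ≤ 8, ∀ i, f k (p i) = f k i := fun k => by
    induction k with
    | zero => intro _ _; rfl
    | succ k ih =>
      intro hk i
      rw [f_step k hk, f_step k hk]
      refine (Function.Bijective.sum_comp (Finite.injective_iff_bijective.1 pi) _).symm.trans
        (Finset.sum_congr rfl fun j _ => ?_)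
      rw [ih (by omega), ← hp, ← hp]
      exact if_congr (φ.map_rel_iff (a := T i) (b := T j)) rfl rfl
  rw [hp, f_inj (key 8 le_rfl i)]

theorem equi (φ : G ≃g G) (u i) : φ (mul u (T i)) = mul (φ u) (T i) := by
  have := fix ((L u).trans (φ.trans (L (φ u)).symm)) (by
    change mul (iv (φ u)) (φ (mul u 0)) = 0
    rw [mul0, iv1]) i
  change mul (iv (φ u)) (φ (mul u (T i))) = T i at this
  have := congrArg (mul (φ u)) this
  rwa [← assoc, iv2, mul1] at this

def D (i : Fin 5) (u v : W) : Prop := v = mul u (T (i.castLE (by norm_num)))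

theorem result : ∃ (d : ℕ) (V : Type) (_ : Countable V) (G : SimpleGraph V),
    1 ≤ d ∧ G.Connected ∧ (∀ v, (G.neighborSet v).ncard = 2 * d) ∧
    (∀ u v, ∃ φ : G ≃g G, φ u = v) ∧
    ∃ F : (V → unitInterval) → Fin d → V → V → Prop, Measurable F ∧
      (∀ ω, IsSchreier G (F ω)) ∧
      (∀ (φ : G ≃g G) ω i u v, F (ω ∘ φ.symm) i (φ u) (φ v) ↔ F ω i u v) ∧
      Measure.infinitePi (fun _ : V => (volume : Measure unitInterval))
        {ω | ∃ i, ∃ p : ℕ → V, Function.Injective p ∧
          ∀ n, F ω i (p n) (p (n + 1)) ∨ F ω i (p (n + 1)) (p n)} = 1 := by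
  refine ⟨5, W, inferInstance, G, by norm_num, ?_, fun v => ?_, fun u v => ?_, fun _ => D,
    measurable_const, fun _ => ⟨?_, ?_, ?_, ?_⟩, fun φ _ i u v => ?_, ?_⟩
  · have a : ∀ (x : ZMod 5) (k : ℤ), G.Reachable (x, 0) (x, k) := fun x k => by
      induction k using Int.induction_on with
      | zero => rfl
      | succ k ih => exact ih.trans (SimpleGraph.Adj.reachable ⟨1, by simp [mul, T]⟩)
      | pred k ih => exact ih.trans (SimpleGraph.Adj.reachable ⟨6, by simp [mul, T]; ring⟩)
    have b : ∀ k : ℕ, G.Reachable (0, 0) (k, 0) := fun k => by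
      induction k with
      | zero => rfl
      | succ k ih => exact ih.trans (SimpleGraph.Adj.reachable ⟨0, by simp [mul, T, e0]⟩)
    refine (SimpleGraph.connected_iff_exists_forall_reachable G).2 ⟨(0, 0), fun ⟨x, k⟩ => ?_⟩
    exact (by simpa using b x.val : G.Reachable (0, 0) (x, 0)).trans (a x k)
  · have : G.neighborSet v = Set.range fun i => mul v (T i) := by
      ext; simp [G, eq_comm]
    rw [this, Set.ncard_range_of_injective fun a b h => T_inj (canc _ _ _ h)]
    simp
  · refine ⟨L (mul v (iv u)), ?_⟩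
    change mul _ u = v
    rw [assoc, iv1, mul0]
  · exact fun i u v h => ⟨_, h⟩
  · rintro u v ⟨i, rfl⟩
    have h1 : ∀ c : Fin 5 × Bool, (if c.2 then D c.1 u (mul u (T i)) else D c.1 (mul u (T i)) u) ↔
        if c.2 then T i = T (c.1.castLE (by norm_num))
        else 0 = mul (T i) (T (c.1.castLE (by norm_num))) := fun c => by
      split_ifs
      · exact ⟨canc _ _ _, congrArg _⟩
      unfold D
      rw [assoc]
      exact ⟨fun h => canc u _ _ ((mul0 u).trans h), fun h => by rw [← h, mul0]⟩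
    simp only [h1]
    clear h1
    revert i
    unfold ExistsUnique
    decide +kernel
  · exact fun i v => ⟨_, rfl, fun _ h => h⟩
  · refine fun i v => ⟨mul v (iv (T (i.castLE (by norm_num)))), ?_, fun w h => ?_⟩
    · unfold D; beta_reduce; rw [assoc, iv1, mul0]
    · rw [h, assoc, iv2, mul0]
  · simp only [D]
    rw [← equi, φ.injective.eq_iff]
  · refine (congrArg _ (Set.eq_univ_of_forall fun _ => ?_)).trans measure_univ
    exact ⟨1, fun n => (0, n), fun a b h => by simpa using h, fun n => Or.inl (by simp [D, mul, T])⟩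

end Pool.Agent.Results.MP_a13a55_pr.Rigid
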